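import Pool.Agent.P.MP_1f345d_an.G.Neg

set_option autoImplicit false
open Filter Topology
open scoped ZeroAtInfty
open Pool.Agent.P.MP_1f345d_an.G

namespace Pool.Agent.Results.MP_1f345d_an.DustThreshold

/-- Sharp criterion for common hypercyclic vectors of products of Rolewicz operators over corner
dusts with variable dissection ratios, in every dimension. -/
theorem result (𝕜 : Type) [RCLike 𝕜] (d : ℕ) (a : Fin d → ℝ) (ha : ∀ i, 0 < a i)
    (l : ℕ → ℝ) (hl : ∀ j, 0 < l j) (θ : ℝ) (hθ : θ < 1 / 2) (hr : ∀ j, l (j + 1) ≤ θ * l j) :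
    List.TFAE
      [∃ x : Fin d → C₀(ℕ, 𝕜), ∀ w ∈ dust a l, DenseRange fun n : ℕ => (rol w)^[n] x,
       ∀ᶠ x in residual (Fin d → C₀(ℕ, 𝕜)), ∀ w ∈ dust a l, DenseRange fun n : ℕ => (rol w)^[n] x,
       ¬ Summable fun j : ℕ =>
          Real.log (l j / l (j + 1)) / ∑ i ∈ Finset.range (j + 1), ((2 : ℝ) ^ d) ^ i * l i] := by
  tfae_have 1 → 3 := fun ⟨x, hx⟩ => not_summable hl hθ hr ha hx
  tfae_have 3 → 2 := residual_common hl (dec hl hθ hr) (Summable.tendsto_atTop_zero
    (summable_of_sum_range_le (c := 2 * l 0) (fun j => (hl j).le) fun n => by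
      have := sum_Ico_le hl hθ hr (Nat.zero_le n)
      rw [← Finset.range_eq_Ico] at this
      linarith [hl n])) ha
  tfae_have 2 → 1 := fun h => (dense_of_mem_residual h).nonempty
  tfae_finish

end Pool.Agent.Results.MP_1f345d_an.DustThreshold
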